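import Pool.Agent.R936.Hel2.Main

/-!
# The theorem of Helly type for Hodge classes
-/

set_option linter.unusedVariables false
set_option linter.unusedSectionVars false

open CategoryTheory AlgebraicGeometry TensorProduct

universe u w

namespace Pool.Agent.R936.Hel2

open Pool.Agent.H914 Pool.Agent.W534 VarClass Obj WeilCohomology Module
open Pool.Agent.Y121 Pool.Agent.Y121.AHS
open Pool.Agent.H281R3.HT
open Pool.Agent.Y133.Half (spanCycles_of_algSpan)
open Pool.Agent.W536.RR (algSpan_map algSpan_mul one_mem_algSpan cl_mem_algSpan algSpan_push)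
open Pool.Agent.R940 (CMB exists_cycle exists_cmb NonnegTypes IsCM HodgeConj EndH endC)
open Pool.Agent.R936.Hel (toZ Cl)

variable {k : Type u} [Field k] {𝒱 : VarClass k} {ops : CycleOps 𝒱} {I : Type w}

lemma prodOf_eq (X : I → 𝒱.Obj) : ∀ (L : List I) (i : I), prodOf X i L = Hel.prodOf X i L
  | [], i => rfl
  | j :: L, i => by
    rw [prodOf, Hel.prodOf, prodOf_eq X L j]

lemma prodOf_comp {J : Type*} (f : J → I) (X : I → 𝒱.Obj) : ∀ (L : List J) (j : J),
    Hel.prodOf (fun j => X (f j)) j L = Hel.prodOf X (f j) (L.map f)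
  | [], j => rfl
  | j' :: L, j => by
    rw [List.map_cons, Hel.prodOf, Hel.prodOf, prodOf_comp f X L j']

variable {T : AHS.HodgeTheory ops} {X : I → 𝒱.Obj}

/-- **The theorem of Helly type.** -/
theorem helly_gen (hpos : NonnegTypes T) (hX : ∀ i, IsCM T (X i)) {R : ℕ}
    (hR : HodgeGroupDimLe T X R) {m : ℕ∞} (hm : IsFactorBound X R m) (G : Cl (toH T).W)
    (h : ∀ i L, Few (R + 1) m (i :: L) → HG (T := toH T) G (Hel.prodOf X i L)) (i : I)
    (Lst : List I) : HG (T := toH T) G (Hel.prodOf X i Lst) := by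
  classical
  choose f hf hgr hpq using hX
  obtain ⟨D, z, hD⟩ := hR
  set J := {j // j ∈ i :: Lst} with hJ
  have hfJ : Finite J := List.finite_toSet (i :: Lst)
  cases nonempty_fintype J
  set P : Polynomial T.W.K :=
    ∏ j : J, LinearMap.charpoly (R := T.W.K) (M := T.W.H (X j.1)) (f j.1) with hP
  have hP0 : P ≠ 0 := Finset.prod_ne_zero_iff.2 fun j _ =>
    (LinearMap.charpoly_monic (R := T.W.K) (M := T.W.H (X j.1)) (f j.1)).ne_zero
  have hfin0 : FiniteDimensional T.W.K P.SplittingField := inferInstance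
  have hgal : IsGalois T.W.K P.SplittingField := ⟨⟩
  have hchar : CharZero P.SplittingField :=
    charZero_of_injective_algebraMap (algebraMap T.W.K P.SplittingField).injective
  have hfin : @FiniteDimensional (toH T).W.K P.SplittingField _ _ (instAlgH T P.SplittingField
    (h := inferInstance)).toModule := hfin0
  have hgal' : @IsGalois (toH T).W.K _ P.SplittingField _ (instAlgH T P.SplittingField
    (h := inferInstance)) := hgal
  have hKL : Algebra.IsAlgebraic (toH T).W.K P.SplittingField := inferInstance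
  let σ₀ : P.SplittingField →ₐ[(toH T).W.K] ℂ := IsAlgClosed.lift
  have hsplit : ∀ j : J, ((LinearMap.charpoly (R := T.W.K) (M := T.W.H (X j.1)) (f j.1)).map
      (algebraMap T.W.K P.SplittingField)).Splits := by
    intro j
    refine (Polynomial.SplittingField.splits P).of_dvd
      ((Polynomial.map_ne_zero_iff (algebraMap T.W.K P.SplittingField).injective).2 hP0)
      (Polynomial.map_dvd _ ?_)
    exact Finset.dvd_prod_of_mem _ (Finset.mem_univ j)
  have hM : ∀ j : J, Nonempty (CMB (toH T) (X j.1) P.SplittingField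
      (Fin (finrank T.W.K (T.W.H (X j.1))))) := fun j =>
    exists_cmb (T := toH T) (X := X j.1) (L := P.SplittingField) (f := f j.1) (hf j.1) (hgr j.1)
      (fun p q x hx => hpq j.1 p q x hx) (hsplit j)
  let M := fun j => (hM j).some
  have hrank := rank_le (T := toH T) (X := fun j : J => X j.1) (L := P.SplittingField) M
    (D := fun m j => D m j.1) (z := z) (fun j p q x hx => hD j.1 p q x hx)
  obtain ⟨L', hL'⟩ : ∃ L' : List J, L'.map Subtype.val = Lst := by
    refine ⟨Lst.pmap Subtype.mk fun j hj => List.mem_cons_of_mem _ hj, ?_⟩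
    rw [List.map_pmap, List.pmap_eq_map, List.map_id']
  have hm' : m = ⊤ ∨ ∃ d : ℕ, (∀ j : J, (X j.1).dim ≤ d) ∧
      m = ((2 * (R + 1) * (2 * (2 * (R + 1) * d) + 1) ^ (2 * (R + 1)) : ℕ) : ℕ∞) := by
    rcases hm with hm | ⟨d, hd, hm⟩
    · exact Or.inl hm
    · refine Or.inr ⟨d, fun j => hd j.1, ?_⟩
      rw [hm, factorBound]
      congr 3
      ring
  have h1 := helly_hodge (T := toH T) (X := fun j : J => X j.1) M hpos σ₀ hrank (m := m) hm'
    (G := G) (fun j L hF hlen => by
      obtain ⟨F, hF1, hF2⟩ := hF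
      rw [prodOf_comp Subtype.val X L j]
      refine h _ _ ⟨⟨F.image Subtype.val, Finset.card_image_le.trans hF1, fun m hm => ?_⟩, by
        rwa [List.length_cons, List.length_map]⟩
      rcases List.mem_cons.1 hm with rfl | hm
      · exact Finset.mem_image_of_mem _ (hF2 j List.mem_cons_self)
      · obtain ⟨y, hy, rfl⟩ := List.mem_map.1 hm
        exact Finset.mem_image_of_mem _ (hF2 y (List.mem_cons_of_mem _ hy)))
    ⟨i, List.mem_cons_self⟩ L'
  rw [prodOf_comp Subtype.val X L', hL'] at h1
  exact h1

variable (T X) in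
/-- The generated system. -/
noncomputable def genCl (N : ℕ) (m : ℕ∞) : Cl (toH T).W where
  C Y :=
    { carrier := {c : T.W.H Y | Generated T X N m Y c}
      zero_mem' := by
        have h1 : Generated T X N m Y ((0 : T.W.K) • (1 : T.W.H Y)) := .smul _ _ _ (.one Y)
        rw [zero_smul] at h1
        exact h1
      add_mem' := fun {a b} ha hb => .add _ _ _ ha hb
      smul_mem' := fun r a ha => .smul _ _ _ ha }
  one Y := Generated.one Y
  mul ha hb := Generated.mul _ _ _ ha hb
  map f _ ha := Generated.map _ _ f _ ha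
  push f _ ha := Generated.push _ _ f _ ha

/-- All Hodge classes are generated. -/
theorem generated (hpos : NonnegTypes T) (hX : ∀ i, IsCM T (X i)) {R : ℕ}
    (hR : HodgeGroupDimLe T X R) {m : ℕ∞} (hm : IsFactorBound X R m) (i : I) (L : List I) (j : ℕ)
    (c : T.W.H (prodOf X i L)) (hc : IsHodge T (prodOf X i L) j c) :
    Generated T X (R + 1) m (prodOf X i L) c := by
  have h1 := helly_gen hpos hX hR hm (genCl T X (R + 1) m) (fun i L hL => by
    rw [← prodOf_eq]
    exact fun j c hc => Generated.hodge i L hL j c hc) i L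
  rw [← prodOf_eq] at h1
  exact h1 j c hc

/-- The system of the algebraic classes. -/
noncomputable def algCl (W : WeilCohomology.{u, 0} ops) : Cl W where
  C Y := algSpan W Y
  one _ := one_mem_algSpan
  mul ha hb := algSpan_mul ha hb
  map f _ ha := algSpan_map f ha
  push f _ ha := algSpan_push f ha

/-- The reduction of the Hodge conjecture. -/
theorem hodge_red (hpos : NonnegTypes T) (hX : ∀ i, IsCM T (X i)) {R : ℕ}
    (hR : HodgeGroupDimLe T X R) {m : ℕ∞} (hm : IsFactorBound X R m)
    (h : ∀ i L, Few (R + 1) m (i :: L) → HodgeConj T (prodOf X i L)) (i : I) (L : List I) :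
    HodgeConj T (prodOf X i L) := by
  have h1 := helly_gen hpos hX hR hm (algCl (toH T).W) (fun i L hL => by
    rw [← prodOf_eq]
    intro j c hc
    obtain ⟨z, hz, rfl⟩ := h i L hL j c hc
    exact cl_mem_algSpan hz) i L
  rw [← prodOf_eq] at h1
  intro j c hc
  exact exists_cycle T.rat (spanCycles_of_algSpan (h1 j c hc) hc.1)

end Pool.Agent.R936.Hel2
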