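import Pool.Agent.R936.Hel.Geo2
import Pool.Agent.R936.Hel.Grp

/-!
# The theorem of Helly type for classes with weights
-/

set_option linter.unusedSectionVars false

open CategoryTheory AlgebraicGeometry

universe u v w

namespace Pool.Agent.R936.Hel

open Pool.Agent.H914 Pool.Agent.W534 VarClass Obj WeilCohomology Pool.Agent.H281R3.HT
open Pool.Agent.Y163 (HBasis prod_perm)
open Pool.Agent.Y133.Half (algSys Sys PH xp corr_xp spanCycles_of_algSpan)
open Pool.Agent.W536.RR (algSpan_map algSpan_mul one_mem_algSpan)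
open Submodule (span)

variable {k : Type u} [Field k] {𝒱 : VarClass k} {ops : CycleOps 𝒱}
  {W : WeilCohomology.{u, v} ops} {Y Z Z' : 𝒱.Obj}
  {I : Type w} {X : I → 𝒱.Obj} {ι : I → Type v} {B : ∀ i, HBasis W (X i) (ι i)}

/-- The dual vectors. -/
lemma exists_dualv {Y : 𝒱.Obj} {κ : Type v} [Finite κ] (b : Module.Basis κ W.K (W.H Y))
    {x : W.H Y} (hx : x ≠ 0) : ∃ m, W.tr Y (x * b m) ≠ 0 := by
  classical
  cases nonempty_fintype κ
  by_contra hcon
  push Not at hcon
  apply hx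
  apply W.nondeg
  intro y
  rw [← b.sum_repr y, Finset.mul_sum, map_sum]
  refine Finset.sum_eq_zero fun m _ => ?_
  rw [mul_smul_comm, map_smul, hcon, smul_zero]

/-- The trace of the product in the other order. -/
lemma tr_comm_ne {Y : 𝒱.Obj} {i j : ℕ} {x y : W.H Y} (hx : x ∈ W.gr Y i) (hy : y ∈ W.gr Y j)
    (h : W.tr Y (x * y) ≠ 0) : W.tr Y (y * x) ≠ 0 := by
  intro h0
  apply h
  rw [W.comm hx hy, map_smul, h0, smul_zero]

lemma exists_duall [∀ i, Finite (ι i)] (B : ∀ i, HBasis W (X i) (ι i)) (l : Σ i, ι i) :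
    ∃ m : ι l.1, W.tr (X l.1) ((B l.1).b m * (B l.1).b l.2) ≠ 0 := by
  obtain ⟨m, hm⟩ := exists_dualv (B l.1).b ((B l.1).b.ne_zero l.2)
  exact ⟨m, tr_comm_ne ((B l.1).mem _) ((B l.1).mem _) hm⟩

lemma IsCan.step' [∀ i, Finite (ι i)] {T : 𝒱.Obj} {M : List (Σ i, ι i)} (h : IsCan B T M)
    (l : Σ i, ι i) : IsCan B ((X l.1).prod T) (l :: M) := by
  obtain ⟨C, h1, h2, h3⟩ := h
  refine ⟨⟨l, fst (X l.1) T⟩ :: pull (snd (X l.1) T) C, ?_, ?_, fun Z N hN => ?_⟩
  · rw [List.map_cons, pull_fst, h1]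
  · rw [lwf_cons, ← map_lwf]
    obtain ⟨m, hm⟩ := exists_duall B l
    exact xp_ne hm h2
  · match N, hN with
    | y :: N, hN =>
      rw [List.map_cons] at hN
      obtain ⟨h4, h5⟩ := List.cons.inj hN
      subst h4
      obtain ⟨g, hg⟩ := h3 Z N h5
      refine ⟨Obj.lift y.2 g, ?_⟩
      rw [lwf_cons, lwf_cons, map_mul, ← map_lwf, ← W.map_comp, ← W.map_comp, Obj.lift_fst,
        Obj.lift_snd, hg]

lemma isCan_prod' [∀ i, Finite (ι i)] (B : ∀ i, HBasis W (X i) (ι i)) :
    ∀ (L : List (Σ i, ι i)) (l : Σ i, ι i),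
      IsCan B (prodOf X l.1 (L.map Sigma.fst)) (l :: L)
  | [], l => IsCan.base l
  | l' :: L, l => (isCan_prod' B L l').step' l

/-- A system of classes. -/
structure Cl (W : WeilCohomology.{u, v} ops) where
  /-- the classes -/
  C : ∀ X : 𝒱.Obj, Submodule W.K (W.H X)
  one : ∀ X : 𝒱.Obj, (1 : W.H X) ∈ C X
  mul : ∀ {X : 𝒱.Obj} {c d : W.H X}, c ∈ C X → d ∈ C X → c * d ∈ C X
  map : ∀ {X Y : 𝒱.Obj} (f : X ⟶ Y) {c : W.H Y}, c ∈ C Y → W.map f c ∈ C X
  push : ∀ {X Y : 𝒱.Obj} (f : X ⟶ Y) {c : W.H X}, c ∈ C X → W.push f c ∈ C Y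

variable (S : Cl W)

/-- All words with the given letters belong to the system. -/
def AlgS (B : ∀ i, HBasis W (X i) (ι i)) (M : Multiset (Σ i, ι i)) : Prop :=
  ∀ (Z : 𝒱.Obj) (N : List (Lt X ι Z)), (↑(N.map Sigma.fst) : Multiset (Σ i, ι i)) = M →
    lwf B N ∈ S.C Z

lemma AlgS.zero : AlgS S B 0 := by
  intro Z N h
  have h1 : N.map Sigma.fst = [] := Multiset.coe_eq_zero _ |>.1 h
  have h2 : N = [] := List.map_eq_nil_iff.1 h1
  rw [h2, lwf_nil]
  exact S.one _

variable {S}

lemma AlgS.add {M M' : Multiset (Σ i, ι i)} (h : AlgS S B M) (h' : AlgS S B M') :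
    AlgS S B (M + M') := by
  intro Z N hN
  obtain ⟨N1, N2, h1, h2, h3⟩ := split_add M M' N hN
  obtain ⟨ε, _, hε⟩ := lwf_perm (B := B) h1
  rw [hε, lwf_append]
  exact Submodule.smul_mem _ _ (S.mul (h Z N1 h2) (h' Z N2 h3))

variable (S)

/-- The words with the given letters on `T` belong to the system, and they pair nontrivially with
classes of the system. -/
def GoodOn (B : ∀ i, HBasis W (X i) (ι i)) (T : 𝒱.Obj) (b : List (Σ i, ι i)) : Prop :=
  ∀ C : List (Lt X ι T), C.map Sigma.fst = b → lwf B C ∈ S.C T ∧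
    (lwf B C ≠ 0 → ∃ y ∈ S.C T, W.tr T (y * lwf B C) ≠ 0)

variable {S}

lemma AlgS.small {T : 𝒱.Obj} {b : List (Σ i, ι i)} (hcan : IsCan B T b) (hT : GoodOn S B T b) :
    AlgS S B ↑b := by
  intro Z N hN
  obtain ⟨N', h1, h2⟩ := reorder _ N hN
  obtain ⟨ε, _, hε⟩ := lwf_perm (B := B) h1
  obtain ⟨C, h3, _, h5⟩ := hcan
  obtain ⟨g, hg⟩ := h5 Z N' h2
  rw [hε, hg]
  exact Submodule.smul_mem _ _ (S.map g (hT C h3).1)

lemma AlgS.cancel {T : 𝒱.Obj} {b : List (Σ i, ι i)} (hcan : IsCan B T b) (hT : GoodOn S B T b)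
    {M : Multiset (Σ i, ι i)} (h : AlgS S B (M + ↑b)) : AlgS S B M := by
  intro Z N hN
  obtain ⟨C, h3, h4, _⟩ := hcan
  obtain ⟨y, hyA, hy1⟩ := (hT C h3).2 h4
  have h6 := h (T.prod Z) (pull (fst T Z) C ++ pull (snd T Z) N) (by
    rw [List.map_append, pull_fst, pull_fst, ← Multiset.coe_add, h3, hN, add_comm])
  rw [lwf_append, ← map_lwf, ← map_lwf] at h6
  have h7 := S.mul (S.map (fst T Z) hyA) h6
  rw [← mul_assoc, ← map_mul] at h7
  have h8 := S.push (snd T Z) h7
  rw [push_snd] at h8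
  have h9 := Submodule.smul_mem _ (W.tr T (y * lwf B C))⁻¹ h8
  rwa [smul_smul, inv_mul_cancel₀ hy1, one_smul] at h9

variable {A : Type*} [AddCommGroup A] [Module.IsTorsionFree ℤ A]

/-- The words of weight zero with few different letters in few members. -/
def SR (v : (Σ i, ι i) → A) (q : A) (R : ℕ) : Set (Multiset (Σ i, ι i)) :=
  {M | toZ M ∈ Rel v q ∧ (∃ F : Finset I, F.card ≤ R + 1 ∧ ∀ l ∈ M, l.1 ∈ F) ∧
    ∃ G : Finset (Σ i, ι i), G.card ≤ 2 * (R + 1) ∧ ∀ l ∈ M, l ∈ G}

lemma rel_le' {v : (Σ i, ι i) → A} {q : A} {R : ℕ}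
    (hdual : ∀ l : Σ i, ι i, ∃ l' : Σ i, ι i, l'.1 = l.1 ∧ toZ ({l', l} : Multiset _) ∈ Rel v q)
    {y : (Σ i, ι i) →₀ ℤ} (hy : y ∈ Rel v q)
    (hcard : y.support.card ≤ R + 1) : y ∈ span ℤ (toZ '' SR v q R) := by
  classical
  choose st hst1 hst2 using hdual
  obtain ⟨M, M', h1, h2, h3⟩ := exists_parts y
  have key : ∀ N : Multiset (Σ i, ι i), toZ N + toZ (N.map st) ∈ span ℤ (toZ '' SR v q R) ∧
      toZ N + toZ (N.map st) ∈ Rel v q := by
    intro N
    induction N using Multiset.induction_on with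
    | empty =>
      rw [Multiset.map_zero, map_zero, add_zero]
      exact ⟨Submodule.zero_mem _, Submodule.zero_mem _⟩
    | cons a N ih =>
      have h4 : toZ (a ::ₘ N) + toZ ((a ::ₘ N).map st) =
          toZ {st a, a} + (toZ N + toZ (N.map st)) := by
        rw [Multiset.map_cons, toZ_cons, toZ_cons]
        have h5 : toZ ({st a, a} : Multiset (Σ i, ι i)) = toZ {st a} + toZ {a} := by
          rw [← map_add]
          rfl
        rw [h5]
        abel
      rw [h4]
      refine ⟨Submodule.add_mem _ (Submodule.subset_span ⟨_, ⟨hst2 a, ⟨{a.1}, ?_, ?_⟩,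
        {st a, a}, ?_, ?_⟩, rfl⟩) ih.1, Submodule.add_mem _ (hst2 a) ih.2⟩
      · rw [Finset.card_singleton]
        omega
      · intro l hl
        rw [Finset.mem_singleton]
        rcases Multiset.mem_cons.1 hl with rfl | hl
        · exact hst1 a
        · rw [Multiset.mem_singleton.1 hl]
      · exact Finset.card_le_two.trans (by omega)
      · intro l hl
        rcases Multiset.mem_cons.1 hl with rfl | hl
        · exact Finset.mem_insert_self _ _
        · rw [Multiset.mem_singleton.1 hl]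
          exact Finset.mem_insert_of_mem (Finset.mem_singleton_self a)
  have h4 : toZ (M + M'.map st) = y + (toZ M' + toZ (M'.map st)) := by
    rw [map_add, ← h1]
    abel
  have h5 : toZ (M + M'.map st) ∈ span ℤ (toZ '' SR v q R) := by
    refine Submodule.subset_span ⟨_, ⟨?_, ⟨y.support.image Sigma.fst, ?_, ?_⟩,
      y.support ∪ y.support.image st, ?_, ?_⟩, rfl⟩
    · rw [h4]
      exact Submodule.add_mem _ hy (key M').2
    · exact Finset.card_image_le.trans hcard
    · intro l hl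
      rcases Multiset.mem_add.1 hl with hl | hl
      · exact Finset.mem_image_of_mem _ (h2 l hl)
      · obtain ⟨a, ha, rfl⟩ := Multiset.mem_map.1 hl
        rw [hst1]
        exact Finset.mem_image_of_mem _ (h3 a ha)
    · refine (Finset.card_union_le _ _).trans ?_
      have h6 := Finset.card_image_le (s := y.support) (f := st)
      omega
    · intro l hl
      rcases Multiset.mem_add.1 hl with hl | hl
      · exact Finset.mem_union_left _ (h2 l hl)
      · obtain ⟨a, ha, rfl⟩ := Multiset.mem_map.1 hl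
        exact Finset.mem_union_right _ (Finset.mem_image_of_mem _ (h3 a ha))
  rw [h4] at h5
  have h6 := Submodule.sub_mem _ h5 (key M').1
  rwa [add_sub_cancel_right] at h6

/-- The relations are generated by words with few letters. -/
theorem mem_span_SR {v : (Σ i, ι i) → A} {q : A} {R : ℕ}
    (hR : ∀ s : Fin (R + 1) → (Σ i, ι i), ∃ a : Fin (R + 1) → ℤ, a ≠ 0 ∧
      ∑ i, a i • v (s i) = 0)
    (hdual : ∀ l : Σ i, ι i, ∃ l' : Σ i, ι i, l'.1 = l.1 ∧ toZ ({l', l} : Multiset _) ∈ Rel v q)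
    {x : (Σ i, ι i) →₀ ℤ} (hx : x ∈ Rel v q) : x ∈ span ℤ (toZ '' SR v q R) := by
  have h1 := mem_small hR hx
  have h2 : Small v q R ≤ span ℤ (toZ '' SR v q R) := by
    refine Submodule.span_le.2 fun y hy => ?_
    exact rel_le' hdual hy.1 hy.2
  exact h2 h1

/-- **The words generated by words in the system.** -/
theorem alg_of_span [∀ i, Finite (ι i)] {S₀ : Set (Multiset (Σ i, ι i))}
    (hT : ∀ (l : Σ i, ι i) (L : List (Σ i, ι i)), (↑(l :: L) : Multiset (Σ i, ι i)) ∈ S₀ →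
      GoodOn S B (prodOf X l.1 (L.map Sigma.fst)) (l :: L))
    {M : Multiset (Σ i, ι i)} (hM : toZ M ∈ span ℤ (toZ '' S₀)) : AlgS S B M := by
  obtain ⟨N, hN, N', hN', h3⟩ := exists_closure hM
  rw [← map_add] at h3
  have h4 : M + N' = N := toZ_injective h3
  have hlist : ∀ b ∈ S₀, b = 0 ∨ ∃ (l : Σ i, ι i) (L : List (Σ i, ι i)),
      b = ↑(l :: L) ∧ GoodOn S B (prodOf X l.1 (L.map Sigma.fst)) (l :: L) := by
    intro b hb
    induction b using Quotient.inductionOn with
    | h b =>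
      match b with
      | [] => exact Or.inl rfl
      | l :: L => exact Or.inr ⟨l, L, rfl, hT _ _ hb⟩
  have h5 : ∀ b ∈ AddSubmonoid.closure S₀, AlgS S B b := by
    intro b hb
    induction hb using AddSubmonoid.closure_induction with
    | mem b hb =>
      rcases hlist b hb with rfl | ⟨l, L, rfl, h6⟩
      · exact AlgS.zero S
      · exact AlgS.small (isCan_prod' B L l) h6
    | zero => exact AlgS.zero S
    | add x y _ _ hx hy => exact hx.add hy
  have h6 : ∀ b ∈ AddSubmonoid.closure S₀, ∀ M : Multiset (Σ i, ι i),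
      AlgS S B (M + b) → AlgS S B M := by
    intro b hb
    induction hb using AddSubmonoid.closure_induction with
    | mem b hb =>
      intro M hM
      rcases hlist b hb with rfl | ⟨l, L, rfl, h6⟩
      · rwa [add_zero] at hM
      · exact AlgS.cancel (isCan_prod' B L l) h6 hM
    | zero =>
      intro M hM
      rwa [add_zero] at hM
    | add x y _ _ hx hy =>
      intro M hM
      rw [← add_assoc] at hM
      exact hx M (hy _ hM)
  have h7 := h5 N hN
  rw [← h4] at h7
  exact h6 N' hN' M h7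

end Pool.Agent.R936.Hel
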