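import Pool.Agent.R936.Hel2.Abs
import Pool.Agent.R940.HPig

/-!
# Words of bounded length
-/

set_option linter.unusedSectionVars false

universe w v

namespace Pool.Agent.R936.Hel

open Pool.Agent.R940 (exists_sub_fam)
open Submodule (span)

section

variable {Λ S : Type*} {v : Λ → S → ℤ}

/-- Long words of weight zero have proper subwords of weight zero. -/
lemma exists_sub_ms {b B : ℕ} (hB : ∀ l s, |v l s| ≤ B) {M : Multiset Λ} {G : Finset Λ}
    (hG : G.card ≤ b) (hM : ∀ l ∈ M, l ∈ G) (h0 : (M.map v).sum = 0)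
    (hN : b * (2 * (b * B) + 1) ^ b < M.card) :
    ∃ M1 M2 : Multiset Λ, M = M1 + M2 ∧ M1.card < M.card ∧ M2.card < M.card ∧
      (M1.map v).sum = 0 ∧ (M2.map v).sum = 0 := by
  classical
  have hsum : ∀ (N : Multiset Λ), (∀ l ∈ N, l ∈ G) → ∀ s, ∑ l : G, v l s * (N.count (l : Λ) : ℤ) =
      (N.map v).sum s := by
    intro N
    induction N using Multiset.induction_on with
    | empty =>
      intro _ s
      simp
    | cons a N ih =>
      intro hN s
      rw [Multiset.map_cons, Multiset.sum_cons, Pi.add_apply,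
        ← ih (fun l hl => hN l (Multiset.mem_cons_of_mem hl)) s]
      have h1 : v a s = ∑ l : G, v l s * (if (l : Λ) = a then 1 else 0 : ℤ) := by
        rw [Finset.sum_eq_single (⟨a, hN a (Multiset.mem_cons_self a N)⟩ : G)]
        · simp
        · intro l _ hl
          rw [if_neg (fun h => hl (Subtype.ext h)), mul_zero]
        · intro h
          exact absurd (Finset.mem_univ _) h
      rw [h1, ← Finset.sum_add_distrib]
      refine Finset.sum_congr rfl fun l _ => ?_
      rw [Multiset.count_cons]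
      push_cast
      ring
  have hcard : ∀ (N : Multiset Λ), (∀ l ∈ N, l ∈ G) → ∑ l : G, N.count (l : Λ) = N.card := by
    intro N hN
    rw [Finset.sum_coe_sort G (fun l => N.count l)]
    exact Multiset.sum_count_eq_card hN
  obtain ⟨m, hm1, hm2, hm3, hm4⟩ := exists_sub_fam (ι := G) (κ := S) (fun s l => v l s) (b := b)
    (B := B) (R := 0) (by rw [Fintype.card_coe]; exact hG) (fun s l => hB l s)
    (fun l => M.count (l : Λ)) (fun s => by
      rw [hsum M hM s, h0]
      simp) (by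
      rw [hcard M hM, add_zero]
      exact hN)
  let M1 : Multiset Λ := ∑ l : G, m l • ({(l : Λ)} : Multiset Λ)
  have hc1 : ∀ l : G, M1.count (l : Λ) = m l := by
    intro l
    rw [Multiset.count_sum', Finset.sum_eq_single l]
    · rw [Multiset.count_nsmul, Multiset.count_singleton_self, mul_one]
    · intro l' _ hl'
      rw [Multiset.count_nsmul, Multiset.count_singleton, if_neg (fun h => hl' (Subtype.ext h.symm)),
        mul_zero]
    · intro h
      exact absurd (Finset.mem_univ _) h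
  have hG1 : ∀ l ∈ M1, l ∈ G := by
    intro l hl
    obtain ⟨a, _, ha⟩ := Multiset.mem_sum.1 hl
    rw [Multiset.mem_singleton.1 (Multiset.mem_of_mem_nsmul ha)]
    exact a.2
  have hle : M1 ≤ M := by
    rw [Multiset.le_iff_count]
    intro l
    by_cases hl : l ∈ G
    · exact (hc1 ⟨l, hl⟩).le.trans (hm1 ⟨l, hl⟩)
    · rw [Multiset.count_eq_zero_of_notMem fun h => hl (hG1 l h)]
      exact Nat.zero_le _
  obtain ⟨M2, hM2⟩ := Multiset.le_iff_exists_add.1 hle
  have hs1 : (M1.map v).sum = 0 := by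
    funext s
    rw [← hsum M1 hG1 s]
    simp only [hc1]
    exact hm4 s
  have hk1 : M1.card = ∑ l, m l := by
    rw [← hcard M1 hG1]
    exact Finset.sum_congr rfl fun l _ => hc1 l
  have hk2 : M1.card + M2.card = M.card := by rw [hM2, Multiset.card_add]
  refine ⟨M1, M2, hM2, ?_, ?_, hs1, ?_⟩
  · rw [hk1, ← hcard M hM]
    exact hm3
  · omega
  · rw [hM2, Multiset.map_add, Multiset.sum_add, hs1, zero_add] at h0
    exact h0

end

variable {I : Type w} {ι : I → Type v} {S : Type*}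

/-- The words of weight zero and length at most `m` with letters in few members. -/
def SN (v : (Σ i, ι i) → S → ℤ) (R : ℕ) (m : ℕ∞) : Set (Multiset (Σ i, ι i)) :=
  {M | toZ M ∈ Rel v 0 ∧ (∃ F : Finset I, F.card ≤ R + 1 ∧ ∀ l ∈ M, l.1 ∈ F) ∧ (M.card : ℕ∞) ≤ m}

lemma rel_zero_iff {v : (Σ i, ι i) → S → ℤ} {M : Multiset (Σ i, ι i)} :
    toZ M ∈ Rel v 0 ↔ (M.map v).sum = 0 := by
  rw [Rel, Submodule.mem_comap, lc_toZ, Submodule.span_zero_singleton, Submodule.mem_bot]

/-- The words of weight zero with few letters are generated by short ones. -/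
lemma SR_le {v : (Σ i, ι i) → S → ℤ} {R B : ℕ} (hB : ∀ l s, |v l s| ≤ B) {M : Multiset (Σ i, ι i)}
    (hM : M ∈ SR v 0 R) : toZ M ∈ span ℤ (toZ '' SN v R
      ((2 * (R + 1) * (2 * (2 * (R + 1) * B) + 1) ^ (2 * (R + 1)) : ℕ) : ℕ∞)) := by
  obtain ⟨h1, ⟨F, hF, hF'⟩, G, hG, hG'⟩ := hM
  rw [rel_zero_iff] at h1
  induction hn : M.card using Nat.strong_induction_on generalizing M with
  | _ n ih =>
  by_cases hle : M.card ≤ 2 * (R + 1) * (2 * (2 * (R + 1) * B) + 1) ^ (2 * (R + 1))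
  · exact Submodule.subset_span ⟨M, ⟨rel_zero_iff.2 h1, ⟨F, hF, hF'⟩, by exact_mod_cast hle⟩, rfl⟩
  · obtain ⟨M1, M2, rfl, h3, h4, h5, h6⟩ := exists_sub_ms hB hG hG' h1 (not_le.1 hle)
    rw [map_add]
    exact Submodule.add_mem _
      (ih _ (hn ▸ h3) h5 (fun l hl => hF' l (Multiset.mem_add.2 (Or.inl hl)))
        (fun l hl => hG' l (Multiset.mem_add.2 (Or.inl hl))) rfl)
      (ih _ (hn ▸ h4) h6 (fun l hl => hF' l (Multiset.mem_add.2 (Or.inr hl)))
        (fun l hl => hG' l (Multiset.mem_add.2 (Or.inr hl))) rfl)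

/-- The relations are generated by words with letters in few members, and of bounded length if the
weights are bounded. -/
theorem mem_span_SN {v : (Σ i, ι i) → S → ℤ} {R : ℕ}
    (hR : ∀ s : Fin (R + 1) → (Σ i, ι i), ∃ a : Fin (R + 1) → ℤ, a ≠ 0 ∧
      ∑ i, a i • v (s i) = 0)
    (hdual : ∀ l : Σ i, ι i, ∃ l' : Σ i, ι i, l'.1 = l.1 ∧ toZ ({l', l} : Multiset _) ∈ Rel v 0)
    {m : ℕ∞} (hm : m = ⊤ ∨ ∃ B : ℕ, (∀ l s, |v l s| ≤ B) ∧
      m = ((2 * (R + 1) * (2 * (2 * (R + 1) * B) + 1) ^ (2 * (R + 1)) : ℕ) : ℕ∞))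
    {x : (Σ i, ι i) →₀ ℤ} (hx : x ∈ Rel v 0) : x ∈ span ℤ (toZ '' SN v R m) := by
  have h1 := mem_span_SR hR hdual hx
  refine (Submodule.span_le (p := span ℤ (toZ '' SN v R m))).2 ?_ h1
  rintro _ ⟨M, hM, rfl⟩
  rcases hm with rfl | ⟨B, hB, rfl⟩
  · exact Submodule.subset_span ⟨M, ⟨hM.1, hM.2.1, le_top⟩, rfl⟩
  · exact SR_le hB hM

end Pool.Agent.R936.Hel
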