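import Pool.Agent.R940.HDefs

/-!
# Hodge classes on products of varieties of CM type: definitions

A Hodge theory `T` (`Pool.Agent.Y121.AHS.HodgeTheory`) is a Weil cohomology theory with rational
coefficients and a Hodge decomposition of its cohomology with complex coefficients; in the intended use
it is the cohomology of the smooth projective complex varieties.
-/

open CategoryTheory AlgebraicGeometry

universe u w

namespace Pool.Agent.R936.Hel2

open Pool.Agent.H914 Pool.Agent.H914.VarClass Pool.Agent.H914.VarClass.Obj
  Pool.Agent.H914.WeilCohomology Pool.Agent.Y121.AHS Pool.Agent.R940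

variable {k : Type u} [Field k] {𝒱 : VarClass k} {ops : CycleOps 𝒱} {I : Type w}

/-- The product `X i × X j₁ × ⋯ × X jₘ` of members of the family `X`, where `L = [j₁, ..., jₘ]`. -/
noncomputable def prodOf (X : I → 𝒱.Obj) : I → List I → 𝒱.Obj
  | i, [] => X i
  | i, j :: L => (X i).prod (prodOf X j L)

/-- The list has at most `N` different entries and at most `m` entries (`m` may be infinite). -/
def Few (N : ℕ) (m : ℕ∞) (L : List I) : Prop :=
  (∃ F : Finset I, F.card ≤ N ∧ ∀ j ∈ L, j ∈ F) ∧ (L.length : ℕ∞) ≤ m

/-- The number `2 (R + 1) (4 d (R + 1) + 1) ^ (2 (R + 1))`. -/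
def factorBound (R d : ℕ) : ℕ := 2 * (R + 1) * (4 * d * (R + 1) + 1) ^ (2 * (R + 1))

/-- Either `m` is infinite, or it is the number `factorBound R d`, where `d` is an upper bound for the
dimensions of the members of the family `X`. -/
def IsFactorBound (X : I → 𝒱.Obj) (R : ℕ) (m : ℕ∞) : Prop :=
  m = ⊤ ∨ ∃ d : ℕ, (∀ i, (X i).dim ≤ d) ∧ m = (factorBound R d : ℕ)

/-- There are `R` rational endomorphisms `D j` of the sum of the cohomology groups of the members of
the family `X`, which map the cohomology of each member `X i` to itself, such that the operator which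
acts on the spaces `H^(p,q)(X i)` as the multiplication by `p - q` is a linear combination
`∑ z j * D j` with complex coefficients.

This operator generates the Lie algebra of the image of the circle group, and for Hodge structures of
CM type the least such number `R` is the dimension of their Hodge group (the special Mumford-Tate
group). -/
def HodgeGroupDimLe (T : HodgeTheory ops) (X : I → 𝒱.Obj) (R : ℕ) : Prop :=
  ∃ (D : Fin R → ∀ i, EndH T (X i)) (z : Fin R → ℂ),
    ∀ (i : I) (p q : ℤ) (x : HL T.W ℂ (X i)), IsType T.pq p q x →
      ∑ j, z j • endC (D j i) x = ((p - q : ℤ) : ℂ) • x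

/-- The smallest system of classes on varieties which contains the Hodge classes on the products of
members of the family `X` with at most `N` different factors and at most `m` factors, and which is
closed under linear combinations, cup products, pull-backs and push-forwards. -/
inductive Generated (T : HodgeTheory ops) (X : I → 𝒱.Obj) (N : ℕ) (m : ℕ∞) :
    ∀ Y : 𝒱.Obj, T.W.H Y → Prop
  | hodge (i : I) (L : List I) (hL : Few N m (i :: L)) (j : ℕ) (c : T.W.H (prodOf X i L))
      (hc : IsHodge T (prodOf X i L) j c) : Generated T X N m (prodOf X i L) c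
  | one (Y : 𝒱.Obj) : Generated T X N m Y 1
  | add (Y : 𝒱.Obj) (a b : T.W.H Y) : Generated T X N m Y a → Generated T X N m Y b →
      Generated T X N m Y (a + b)
  | smul (Y : 𝒱.Obj) (r : T.W.K) (a : T.W.H Y) : Generated T X N m Y a → Generated T X N m Y (r • a)
  | mul (Y : 𝒱.Obj) (a b : T.W.H Y) : Generated T X N m Y a → Generated T X N m Y b →
      Generated T X N m Y (a * b)
  | map (Y Z : 𝒱.Obj) (f : Y ⟶ Z) (a : T.W.H Z) : Generated T X N m Z a →
      Generated T X N m Y (T.W.map f a)
  | push (Y Z : 𝒱.Obj) (f : Y ⟶ Z) (a : T.W.H Y) : Generated T X N m Y a →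
      Generated T X N m Z (T.W.push f a)

end Pool.Agent.R936.Hel2
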