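import Pool.Agent.R936.Hel2.HW
import Pool.Agent.R936.Hel2.Bnd

/-!
# The theorem of Helly type for Hodge classes
-/

set_option linter.unusedVariables false
set_option linter.unusedSectionVars false

open CategoryTheory AlgebraicGeometry TensorProduct

universe u w

namespace Pool.Agent.R936.Hel2

open Pool.Agent.H914 Pool.Agent.W534 VarClass Obj WeilCohomology
open Pool.Agent.Y121
open Pool.Agent.Y163 (HBasis)
open Pool.Agent.Y133.Half (algSys Sys spanCycles_of_algSpan)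
open Pool.Agent.H281R3.HT
open Pool.Agent.W536.RR (algSpan_map algSpan_mul one_mem_algSpan cl_mem_algSpan)
open Pool.Agent.R940 (CMB csH csH_smul csH_map csH_em csH_gr csH_inj HSub em_HSub hodge_descent
  cs_ind cs_tmul type_bound deg_eq repr_zero exists_cycle SG em_SG mem_of_SG)
open Pool.Agent.R936.Hel

variable {k : Type u} [Field k] {𝒱 : VarClass k} {ops : CycleOps 𝒱}
  {T : AH.HodgeTheory ops} {Y Z : 𝒱.Obj} {L : Type} [Field L] [Algebra T.W.K L]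
  {I : Type w} {X : I → 𝒱.Obj} {ι : I → Type}

/-! ### Bases of words -/

/-- The words form a basis, for all bases of the factors. -/
def WB (ops : CycleOps 𝒱) (X : I → 𝒱.Obj) (ι : I → Type) (Z : 𝒱.Obj) (κ : Type)
    (N : κ → List (Lt X ι Z)) : Prop :=
  ∀ (W' : WeilCohomology.{u, 0} ops) (B' : ∀ i, HBasis W' (X i) (ι i)),
    ∃ b : Module.Basis κ W'.K (W'.H Z), ∀ a, b a = lwf B' (N a)

lemma WB.step {Y : 𝒱.Obj} {κ : Type} {N : κ → List (Lt X ι Y)} (hN : WB ops X ι Y κ N) (i : I) :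
    WB ops X ι ((X i).prod Y) (ι i × κ)
      (fun x => ⟨⟨i, x.1⟩, fst (X i) Y⟩ :: pull (snd (X i) Y) (N x.2)) := by
  intro W' B'
  obtain ⟨b, hb⟩ := hN W' B'
  refine ⟨((B' i).b.tensorProduct b).map (kappa W' (X i) Y), fun x => ?_⟩
  rw [lwf_cons, ← map_lwf, ← hb, Module.Basis.map_apply, Module.Basis.tensorProduct_apply',
    kappa_tmul]

lemma exists_WB [∀ i, Finite (ι i)] : ∀ (Lst : List I) (i : I),
    ∃ (κ : Type) (_ : Finite κ) (N : κ → List (Lt X ι (prodOf X i Lst))),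
      WB ops X ι (prodOf X i Lst) κ N
  | [], i => by
    refine ⟨ι i, inferInstance, fun a => [⟨⟨i, a⟩, 𝟙 _⟩], fun W' B' => ⟨(B' i).b, fun a => ?_⟩⟩
    rw [lwf_cons, lwf_nil, mul_one]
    exact (W'.map_id _ _).symm
  | j :: Lst, i => by
    obtain ⟨κ, hκ, N, hN⟩ := exists_WB Lst j
    exact ⟨ι i × κ, inferInstance, _, hN.step i⟩

variable (M : ∀ i, CMB T (X i) L (ι i))

/-- The coefficients of conjugate classes. -/
lemma repr_csH {κ : Type} [Finite κ] {N : κ → List (Lt X ι Z)}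
    {b : Module.Basis κ (baseW T.W L).K ((baseW T.W L).H Z)} (hb : ∀ a, b a = lwf (BB M) (N a))
    (σ : L →ₐ[T.W.K] ℂ) {b' : Module.Basis κ (baseW T.W ℂ).K ((baseW T.W ℂ).H Z)}
    (hb' : ∀ a, b' a = lwf (CC M σ) (N a)) (x : (baseW T.W L).H Z) (a : κ) :
    b'.repr (csH σ Z x) a = (show (baseW T.W ℂ).K from σ (b.repr x a)) := by
  classical
  cases nonempty_fintype κ
  have h1 : csH σ Z x = ∑ m, (show (baseW T.W ℂ).K from σ (b.repr x m)) • b' m := by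
    conv_lhs => rw [← b.sum_repr x]
    rw [map_sum]
    refine Finset.sum_congr rfl fun m _ => ?_
    rw [csH_smul, hb, csH_lwf, hb']
  rw [h1, b'.repr_sum_self]

section

variable (hpos : ∀ (Y : 𝒱.Obj) (p q : ℤ), p < 0 ∨ q < 0 → T.pq Y p q = ⊥)

/-- The words which occur in Hodge classes are balanced. -/
lemma rel_of_repr {κ : Type} [Finite κ] {N : κ → List (Lt X ι Z)} (hN : WB ops X ι Z κ N)
    {b : Module.Basis κ (baseW T.W L).K ((baseW T.W L).H Z)} (hb : ∀ a, b a = lwf (BB M) (N a))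
    {J : ℕ} {c : T.W.H Z} (hc : AH.IsHodge T Z J c) {a : κ}
    (ha : b.repr (AH.em T.W L c) a ≠ 0) :
    toZ (↑((N a).map Sigma.fst) : Multiset (Σ i, ι i)) ∈ Hel.Rel (wt M) 0 := by
  rw [rel_iff]
  intro σ
  rw [st_eq, st_eq]
  obtain ⟨b', hb'⟩ := hN _ (CC M σ)
  have h1 : b'.repr (AH.em T.W ℂ c) a ≠ 0 := by
    rw [← csH_em σ, repr_csH M hb σ hb']
    intro h2
    exact ha (σ.injective (h2.trans (map_zero σ).symm))
  have h2 : ((st M σ true (N a), st M σ false (N a)) : ℤ × ℤ) = ((J : ℤ), (J : ℤ)) := by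
    by_contra hne
    refine h1 (repr_zero (T.dec.indep Z) b'
      (fun a => ((st M σ true (N a), st M σ false (N a)) : ℤ × ℤ)) (fun a => ?_) hc.2 hne)
    rw [hb']
    exact lwf_type M σ (N a)
  exact (congrArg Prod.fst h2).trans (congrArg Prod.snd h2).symm

include hpos in
/-- Dual words. -/
lemma st_dual [∀ i, Finite (ι i)] {N C : List (Lt X ι Z)}
    (h : (baseW T.W L).tr Z (lwf (BB M) N * lwf (BB M) C) ≠ 0) (σ : L →ₐ[T.W.K] ℂ) (b : Bool) :
    st M σ b N + st M σ b C = Z.dim := by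
  have h1 : (baseW T.W ℂ).tr Z (lwf (CC M σ) N * lwf (CC M σ) C) ≠ 0 := by
    rw [← csH_lwf, ← csH_lwf, ← map_mul, csH_tr]
    intro h2
    exact h (σ.injective (h2.trans (map_zero σ).symm))
  have h2 := T.dec.mul (lwf_type M σ N) (lwf_type M σ C)
  obtain ⟨h3, h4⟩ := type_of_tr hpos h2 h1
  rcases b with _ | _
  · exact h4
  · exact h3

include hpos in
lemma goodOn [∀ i, Finite (ι i)] [FiniteDimensional T.W.K L] [IsGalois T.W.K L]
    (σ₀ : L →ₐ[T.W.K] ℂ) {l : Σ i, ι i} {Lst : List (Σ i, ι i)}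
    {G : Cl T.W} (hHC : HG G (prodOf X l.1 (Lst.map Sigma.fst)))
    (hrel : toZ (↑(l :: Lst) : Multiset (Σ i, ι i)) ∈ Hel.Rel (wt M) 0) :
    GoodOn (clL G L) (BB M) (prodOf X l.1 (Lst.map Sigma.fst)) (l :: Lst) := by
  intro C hC
  obtain ⟨J, hJ, hJ'⟩ := lwf_HSub M hpos σ₀ C (by rw [hC]; exact hrel)
  refine ⟨alg_of_HSub hHC hJ', fun h0 => ?_⟩
  obtain ⟨κ, hκ, N, hN⟩ := exists_WB (ops := ops) (X := X) (ι := ι) (Lst.map Sigma.fst) l.1
  obtain ⟨b, hb⟩ := hN _ (BB M)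
  obtain ⟨m, hm⟩ := exists_dualv b h0
  have hm' : (baseW T.W L).tr _ (b m * lwf (BB M) C) ≠ 0 :=
    tr_comm_ne (lwf_gr _) (by rw [hb]; exact lwf_gr _) hm
  refine ⟨b m, ?_, hm'⟩
  rw [hb] at hm' ⊢
  obtain ⟨J', _, hJ''⟩ := lwf_HSub M hpos σ₀ (N m) (by
    rw [rel_iff]
    intro σ
    have h1 := st_dual M hpos hm' σ true
    have h2 := st_dual M hpos hm' σ false
    rw [hJ] at h1 h2
    rw [st_eq, st_eq]
    omega)
  exact alg_of_HSub hHC hJ''

include hpos in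
lemma dual_letter [∀ i, Finite (ι i)] (l : Σ i, ι i) : ∃ l' : Σ i, ι i, l'.1 = l.1 ∧
    toZ ({l', l} : Multiset (Σ i, ι i)) ∈ Hel.Rel (wt M) 0 := by
  obtain ⟨m, hm⟩ := exists_duall (BB M) l
  refine ⟨⟨l.1, m⟩, rfl, ?_⟩
  rw [rel_iff]
  suffices hs : ∀ σ b, (({⟨l.1, m⟩, l} : Multiset (Σ i, ι i)).map (pt M σ b)).sum =
      (X l.1).dim from fun σ => (hs σ true).trans (hs σ false).symm
  intro σ b
  have h1 := st_dual M hpos (N := [⟨⟨l.1, m⟩, 𝟙 _⟩]) (C := [⟨l, 𝟙 _⟩]) (by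
    rw [lwf_cons, lwf_nil, mul_one, lwf_cons, lwf_nil, mul_one]
    have h2 := (baseW T.W L).map_id (X l.1) (((M l.1).B).b m)
    have h3 := (baseW T.W L).map_id (X l.1) (((M l.1).B).b l.2)
    rw [h2, h3]
    exact hm) σ b
  rw [st_cons, st_cons] at h1
  have h4 : st M σ b ([] : List (Lt X ι (X l.1))) = 0 := rfl
  rw [h4, add_zero, add_zero] at h1
  have h5 : (({⟨l.1, m⟩, l} : Multiset (Σ i, ι i)).map (pt M σ b)).sum =
      pt M σ b ⟨l.1, m⟩ + pt M σ b l := by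
    simp
  rw [h5]
  exact h1

include hpos in
lemma pt_le_dim [∀ i, Finite (ι i)] (σ : L →ₐ[T.W.K] ℂ) (b : Bool) (l : Σ i, ι i) :
    pt M σ b l ≤ (X l.1).dim := by
  obtain ⟨m, hm⟩ := exists_duall (BB M) l
  have h1 := st_dual M hpos (N := [⟨⟨l.1, m⟩, 𝟙 _⟩]) (C := [⟨l, 𝟙 _⟩]) (by
    rw [lwf_cons, lwf_nil, mul_one, lwf_cons, lwf_nil, mul_one]
    have h2 := (baseW T.W L).map_id (X l.1) (((M l.1).B).b m)
    have h3 := (baseW T.W L).map_id (X l.1) (((M l.1).B).b l.2)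
    rw [h2, h3]
    exact hm) σ b
  rw [st_cons, st_cons] at h1
  have h4 : st M σ b ([] : List (Lt X ι (X l.1))) = 0 := rfl
  rw [h4, add_zero, add_zero] at h1
  have h5 := pt_nonneg M hpos σ b ⟨l.1, m⟩
  have h6 : pt M σ b ⟨l.1, m⟩ + pt M σ b l = (X l.1).dim := h1
  omega

include hpos in
lemma wt_le_dim [∀ i, Finite (ι i)] {d : ℕ} (hd : ∀ i, (X i).dim ≤ d) (l : Σ i, ι i)
    (σ : L →ₐ[T.W.K] ℂ) : |wt M l σ| ≤ d := by
  have h1 := pt_le_dim M hpos σ true l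
  have h2 := pt_le_dim M hpos σ false l
  have h3 := pt_nonneg M hpos σ true l
  have h4 := pt_nonneg M hpos σ false l
  have h5 : ((X l.1).dim : ℤ) ≤ d := by exact_mod_cast hd l.1
  rw [wt, abs_le]
  constructor <;> omega

include hpos in
/-- **The theorem of Helly type.** -/
theorem helly_hodge [∀ i, Finite (ι i)] [FiniteDimensional T.W.K L] [IsGalois T.W.K L]
    (σ₀ : L →ₐ[T.W.K] ℂ) {R : ℕ}
    (hR : ∀ s : Fin (R + 1) → (Σ i, ι i), ∃ a : Fin (R + 1) → ℤ, a ≠ 0 ∧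
      ∑ i, a i • wt M (s i) = 0)
    {m : ℕ∞} (hm : m = ⊤ ∨ ∃ d : ℕ, (∀ i, (X i).dim ≤ d) ∧
      m = ((2 * (R + 1) * (2 * (2 * (R + 1) * d) + 1) ^ (2 * (R + 1)) : ℕ) : ℕ∞))
    {G : Cl T.W} (h : ∀ i Lst, (∃ F : Finset I, F.card ≤ R + 1 ∧ ∀ j ∈ i :: Lst, j ∈ F) →
      ((i :: Lst).length : ℕ∞) ≤ m → HG G (prodOf X i Lst)) (i : I) (Lst : List I) :
    HG G (prodOf X i Lst) := by
  classical
  intro J c hc
  refine mem_of_SG (L := L) ?_
  obtain ⟨κ, hκ, N, hN⟩ := exists_WB (ops := ops) (X := X) (ι := ι) Lst i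
  obtain ⟨b, hb⟩ := hN _ (BB M)
  cases nonempty_fintype κ
  rw [← b.sum_repr (AH.em T.W L c)]
  refine Submodule.sum_mem _ fun a _ => ?_
  by_cases h0 : b.repr (AH.em T.W L c) a = 0
  · rw [h0, zero_smul]
    exact Submodule.zero_mem _
  · refine Submodule.smul_mem _ _ ?_
    rw [hb]
    refine alg_of_span (S := clL G L) (S₀ := SN (wt M) R m) ?_
      (mem_span_SN hR (dual_letter M hpos) ?_ (rel_of_repr M hN hb hc h0)) _ _ rfl
    · rintro l Lst' ⟨hrel, ⟨F, hF, hF'⟩, hcard⟩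
      refine goodOn M hpos σ₀ (h _ _ ⟨F, hF, fun j hj => ?_⟩ ?_) hrel
      · rcases List.mem_cons.1 hj with rfl | hj
        · exact hF' l (Multiset.mem_coe.2 List.mem_cons_self)
        · obtain ⟨x, hx, rfl⟩ := List.mem_map.1 hj
          exact hF' x (Multiset.mem_coe.2 (List.mem_cons_of_mem _ hx))
      · rw [Multiset.coe_card, List.length_cons] at hcard
        rw [List.length_cons, List.length_map]
        exact hcard
    · rcases hm with rfl | ⟨d, hd, rfl⟩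
      · exact Or.inl rfl
      · exact Or.inr ⟨d, wt_le_dim M hpos hd, rfl⟩

end

end Pool.Agent.R936.Hel2
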