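import Pool.Agent.R936.Hel2.Abs
import Pool.Agent.R940.HMain
import Pool.Agent.Y121.AH.Fix

/-!
# Words in the eigenbases of varieties of CM type
-/

set_option linter.unusedVariables false
set_option linter.unusedSectionVars false

open CategoryTheory AlgebraicGeometry TensorProduct

universe u w

namespace Pool.Agent.R936.Hel2

open Pool.Agent.H914 Pool.Agent.W534 VarClass Obj WeilCohomology
open Pool.Agent.Y121
open Pool.Agent.Y163 (HBasis)
open Pool.Agent.Y133.Half (algSys Sys spanCycles_of_algSpan)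
open Pool.Agent.H281R3.HT
open Pool.Agent.W536.RR (algSpan_map algSpan_mul one_mem_algSpan cl_mem_algSpan)
open Pool.Agent.R940 (CMB csH csH_smul csH_map csH_em csH_gr csH_inj HSub em_HSub hodge_descent
  cs_ind cs_tmul type_bound deg_eq repr_zero SG SG_ind em_SG SG_map)
open Pool.Agent.R936.Hel

variable {k : Type u} [Field k] {𝒱 : VarClass k} {ops : CycleOps 𝒱}
  {T : AH.HodgeTheory ops} {Y Z : 𝒱.Obj} {L : Type} [Field L] [Algebra T.W.K L]
  {I : Type w} {X : I → 𝒱.Obj} {ι : I → Type}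

/-! ### Traces and types -/

lemma csH_tr (σ : L →ₐ[T.W.K] ℂ) (x : (baseW T.W L).H Y) :
    (baseW T.W ℂ).tr Y (csH σ Y x) = (show (baseW T.W ℂ).K from σ ((baseW T.W L).tr Y x)) := by
  refine cs_ind (K := T.W.K) (L := L) (A := T.W.H Y) (P := fun x =>
    (baseW T.W ℂ).tr Y (csH σ Y x) = (show (baseW T.W ℂ).K from σ ((baseW T.W L).tr Y x)))
    ?_ ?_ ?_ x
  · exact (map_zero (((baseW T.W ℂ).tr Y).toAddMonoidHom.comp (csH σ Y).toAddMonoidHom)).trans
      ((map_zero (σ.toRingHom.toAddMonoidHom.comp ((baseW T.W L).tr Y).toAddMonoidHom)).symm)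
  · intro x y hx hy
    have h1 := map_add (((baseW T.W ℂ).tr Y).toAddMonoidHom.comp (csH σ Y).toAddMonoidHom) x y
    have h2 := map_add (σ.toRingHom.toAddMonoidHom.comp
      ((baseW T.W L).tr Y).toAddMonoidHom) x y
    exact h1.trans ((congrArg₂ (· + ·) hx hy).trans h2.symm)
  · intro l a
    have h1 : csH σ Y (show (baseW T.W L).H Y from (l ⊗ₜ[T.W.K] a)) =
        (show (baseW T.W ℂ).H Y from ((σ l) ⊗ₜ[T.W.K] a)) := cs_tmul σ l a
    have h2 : formBase L (T.W.tr Y) (l ⊗ₜ[T.W.K] a) = l * algebraMap T.W.K L (T.W.tr Y a) :=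
      formBase_tmul _ _ _
    have h3 : formBase ℂ (T.W.tr Y) (σ l ⊗ₜ[T.W.K] a) =
        σ l * algebraMap T.W.K ℂ (T.W.tr Y a) := formBase_tmul _ _ _
    have h4 : σ (l * algebraMap T.W.K L (T.W.tr Y a)) =
        σ l * algebraMap T.W.K ℂ (T.W.tr Y a) := by
      rw [map_mul, AlgHom.commutes]
    exact (congrArg ((baseW T.W ℂ).tr Y) h1).trans (h3.trans (h4.symm.trans
      (congrArg σ h2.symm)))

section

variable (hpos : ∀ (Y : 𝒱.Obj) (p q : ℤ), p < 0 ∨ q < 0 → T.pq Y p q = ⊥)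

include hpos in
/-- Classes of nonzero trace are of type `(dim, dim)`. -/
lemma type_of_tr {p q : ℤ} {x : (baseW T.W ℂ).H Y} (hx : x ∈ T.pq Y p q)
    (h : (baseW T.W ℂ).tr Y x ≠ 0) : p = Y.dim ∧ q = Y.dim := by
  have h0 : x ≠ 0 := fun h1 => h (by rw [h1, map_zero])
  obtain ⟨h1, h2, h3, h4⟩ := type_bound hpos hx h0
  have h5 : (p + q).toNat = 2 * Y.dim := by
    by_contra hne
    exact h ((baseW T.W ℂ).tr_eq_zero h3 hne)
  rw [h5] at h3
  have hn : Nontrivial (T.W.H Y) := by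
    by_contra hcon
    rw [not_nontrivial_iff_subsingleton] at hcon
    apply h0
    refine cs_ind (K := T.W.K) (L := ℂ) (A := T.W.H Y) (P := fun x =>
      (show (baseW T.W ℂ).H Y from x) = 0) rfl ?_ ?_ x
    · intro x y hx hy
      exact (congrArg₂ (· + ·) hx hy).trans (add_zero _)
    · intro l a
      rw [AH.tmul_eq, Subsingleton.elim a 0, AH.em_zero, smul_zero]
  obtain ⟨l, hl, hl1⟩ := AH.exists_tr_hodge T Y
  have h6 : (baseW T.W ℂ).tr Y (AH.em T.W ℂ l) = 1 := by
    rw [AH.em_tr, hl1]; exact map_one (algebraMap T.W.K ℂ)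
  have h7 := AH.top_eq (W := baseW T.W ℂ) (AH.em_gr hl.1) h6 h3
  have h8 : x ∈ T.pq Y Y.dim Y.dim := by
    rw [h7]
    exact Submodule.smul_mem _ _ hl.2
  by_contra hcon
  have h9 : ((p, q) : ℤ × ℤ) ≠ ((Y.dim : ℤ), (Y.dim : ℤ)) := by
    intro h10
    exact hcon ⟨congrArg Prod.fst h10, congrArg Prod.snd h10⟩
  have h10 := (T.dec.indep Y).pairwiseDisjoint h9
  exact h0 ((Submodule.disjoint_def.1 h10) _ hx h8)

end

/-- The type `(0, 0)` of the unit. -/
lemma one_type : (1 : (baseW T.W ℂ).H Y) ∈ T.pq Y 0 0 := by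
  have h1 : AH.IsHodge T Y 0 (1 : T.W.H Y) := by
    rw [← T.W.cl_fund Y]; exact AH.IsHodge.cl Y.V.fundCycle_mem
  exact h1.2

/-! ### Words -/

variable (M : ∀ i, CMB T (X i) L (ι i))

/-- The bases. -/
abbrev BB : ∀ i, HBasis (baseW T.W L) (X i) (ι i) := fun i => (M i).B

/-- The conjugate bases. -/
abbrev CC (σ : L →ₐ[T.W.K] ℂ) : ∀ i, HBasis (baseW T.W ℂ) (X i) (ι i) := fun i => (M i).C σ

/-- The types of the letters. -/
def pt (σ : L →ₐ[T.W.K] ℂ) (b : Bool) (l : Σ i, ι i) : ℤ :=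
  if b then (M l.1).p σ l.2 else (M l.1).q σ l.2

/-- The differences of the types of the letters. -/
def wt (l : Σ i, ι i) : (L →ₐ[T.W.K] ℂ) → ℤ := fun σ => pt M σ true l - pt M σ false l

/-- The types of a word. -/
def st (σ : L →ₐ[T.W.K] ℂ) (b : Bool) (N : List (Lt X ι Z)) : ℤ :=
  (N.map fun y => pt M σ b y.1).sum

lemma st_cons (σ : L →ₐ[T.W.K] ℂ) (b : Bool) (y : Lt X ι Z) (N : List (Lt X ι Z)) :
    st M σ b (y :: N) = pt M σ b y.1 + st M σ b N := by
  rw [st, List.map_cons, List.sum_cons]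
  rfl

lemma csH_lwf (σ : L →ₐ[T.W.K] ℂ) (N : List (Lt X ι Z)) :
    csH σ Z (lwf (BB M) N) = lwf (CC M σ) N := by
  induction N with
  | nil => exact map_one _
  | cons y N ih =>
    rw [lwf_cons, map_mul, ih, csH_map, lwf_cons]
    congr 2
    exact ((M y.1.1).C_b σ y.1.2).symm

lemma lwf_type (σ : L →ₐ[T.W.K] ℂ) (N : List (Lt X ι Z)) :
    lwf (CC M σ) N ∈ T.pq Z (st M σ true N) (st M σ false N) := by
  induction N with
  | nil => exact one_type
  | cons y N ih =>
    rw [lwf_cons, st_cons, st_cons]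
    exact T.dec.mul (T.dec.map _ ((M y.1.1).type σ y.1.2)) ih

lemma wt_sum (N : Multiset (Σ i, ι i)) (σ : L →ₐ[T.W.K] ℂ) :
    (N.map (wt M)).sum σ = (N.map (pt M σ true)).sum - (N.map (pt M σ false)).sum := by
  induction N using Multiset.induction_on with
  | empty => rfl
  | cons a N ih =>
    rw [Multiset.map_cons, Multiset.sum_cons, Pi.add_apply, ih, Multiset.map_cons,
      Multiset.sum_cons, Multiset.map_cons, Multiset.sum_cons, wt]
    ring

lemma rel_iff (N : Multiset (Σ i, ι i)) :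
    toZ N ∈ Hel.Rel (wt M) 0 ↔ ∀ σ, (N.map (pt M σ true)).sum = (N.map (pt M σ false)).sum := by
  rw [Hel.Rel, Submodule.mem_comap, lc_toZ, Submodule.mem_span_singleton]
  constructor
  · rintro ⟨c, hc⟩ σ
    have h1 := congrFun hc σ
    rw [wt_sum, smul_zero, Pi.zero_apply] at h1
    exact sub_eq_zero.1 h1.symm
  · intro h
    refine ⟨0, ?_⟩
    funext σ
    rw [wt_sum, h, sub_self, smul_zero]
    rfl

lemma st_eq (σ : L →ₐ[T.W.K] ℂ) (b : Bool) (N : List (Lt X ι Z)) :
    ((↑(N.map Sigma.fst) : Multiset (Σ i, ι i)).map (pt M σ b)).sum = st M σ b N := by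
  rw [Multiset.map_coe, List.map_map, Multiset.sum_coe]
  rfl

section

variable (hpos : ∀ (Y : 𝒱.Obj) (p q : ℤ), p < 0 ∨ q < 0 → T.pq Y p q = ⊥)

include hpos in
lemma pt_nonneg [∀ i, Finite (ι i)] (σ : L →ₐ[T.W.K] ℂ) (b : Bool) (l : Σ i, ι i) :
    0 ≤ pt M σ b l := by
  classical
  have := Fintype.ofFinite (ι l.1)
  obtain ⟨_, h1, h2⟩ := deg_eq (M l.1) hpos σ l.2
  rw [pt]
  split
  · exact h1
  · exact h2

include hpos in
lemma st_nonneg [∀ i, Finite (ι i)] (σ : L →ₐ[T.W.K] ℂ) (b : Bool) (N : List (Lt X ι Z)) : 0 ≤ st M σ b N := by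
  induction N with
  | nil => exact le_rfl
  | cons y N ih =>
    rw [st_cons]
    exact add_nonneg (pt_nonneg M hpos σ b _) ih

include hpos in
lemma st_add [∀ i, Finite (ι i)] (σ : L →ₐ[T.W.K] ℂ) (N : List (Lt X ι Z)) :
    st M σ true N + st M σ false N = ((N.map fun y => (M y.1.1).B.deg y.1.2).sum : ℕ) := by
  classical
  induction N with
  | nil => rfl
  | cons y N ih =>
    have := Fintype.ofFinite (ι y.1.1)
    rw [st_cons, st_cons, List.map_cons, List.sum_cons, Nat.cast_add, ← ih,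
      ← (deg_eq (M y.1.1) hpos σ y.1.2).1]
    have h1 : pt M σ true y.1 = (M y.1.1).p σ y.1.2 := rfl
    have h2 : pt M σ false y.1 = (M y.1.1).q σ y.1.2 := rfl
    rw [h1, h2]
    ring

include hpos in
/-- The words of balanced types are Hodge classes. -/
lemma lwf_HSub [∀ i, Finite (ι i)] (σ₀ : L →ₐ[T.W.K] ℂ) (N : List (Lt X ι Z))
    (hN : toZ (↑(N.map Sigma.fst) : Multiset (Σ i, ι i)) ∈ Hel.Rel (wt M) 0) :
    ∃ J : ℕ, (∀ σ b, st M σ b N = J) ∧ lwf (BB M) N ∈ HSub L T Z J := by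
  have hc := (rel_iff M _).1 hN
  have h1 : ∀ σ, st M σ true N = st M σ false N := fun σ => by rw [← st_eq, ← st_eq, hc]
  have h2 := fun σ => st_add M hpos σ N
  have h3 := st_nonneg M hpos σ₀ true N
  have h4 : ∀ σ b, st M σ b N = ((st M σ₀ true N).toNat : ℕ) := by
    intro σ b
    have h5 := h1 σ
    have h6 := h1 σ₀
    have h7 := h2 σ
    have h8 := h2 σ₀
    rcases b with _ | _ <;> omega
  refine ⟨(st M σ₀ true N).toNat, h4, fun σ => ?_⟩
  have h5 := lwf_type M σ N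
  rw [csH_lwf]
  rw [h4 σ true, h4 σ false] at h5
  exact h5

end

/-- The extension of the coefficients of a system of classes. -/
noncomputable def clL (G : Cl T.W) (L : Type) [Field L] [Algebra T.W.K L] :
    Cl (baseW T.W L) where
  C Y := SG L (G.C Y)
  one Y := by
    have h1 : (1 : (baseW T.W L).H Y) = AH.em T.W L 1 := by
      have h := Algebra.TensorProduct.one_def (R := T.W.K) (A := L) (B := T.W.H Y)
      exact h
    rw [h1]
    exact em_SG (G.one Y)
  mul {Y x y} hx hy := by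
    refine SG_ind (P := fun x => x * y ∈ SG L (G.C Y)) ?_ ?_ ?_ ?_ hx
    · rw [zero_mul]; exact Submodule.zero_mem _
    · intro a b ha hb; rw [add_mul]; exact Submodule.add_mem _ ha hb
    · intro c a ha; rw [smul_mul_assoc]; exact Submodule.smul_mem _ _ ha
    · intro a ha
      refine SG_ind (P := fun y => AH.em T.W L a * y ∈ SG L (G.C Y)) ?_ ?_ ?_ ?_ hy
      · rw [mul_zero]; exact Submodule.zero_mem _
      · intro b c hb hc; rw [mul_add]; exact Submodule.add_mem _ hb hc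
      · intro c b hb; rw [mul_smul_comm]; exact Submodule.smul_mem _ _ hb
      · intro b hb
        rw [← AH.em_mul]
        exact em_SG (G.mul ha hb)
  map {Y Y'} f x hx := SG_map f (fun a ha => G.map f ha) hx
  push {Y Y'} f x hx := by
    refine SG_ind (P := fun x => (baseW T.W L).push f x ∈ SG L (G.C Y')) ?_ ?_ ?_ ?_ hx
    · rw [map_zero]; exact Submodule.zero_mem _
    · intro a b ha hb; rw [map_add]; exact Submodule.add_mem _ ha hb
    · intro c a ha; rw [map_smul]; exact Submodule.smul_mem _ _ ha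
    · intro a ha
      rw [AH.em_push]
      exact em_SG (G.push f ha)

/-- The Hodge classes on `Y` belong to the system. -/
def HG (G : Cl T.W) (Y : 𝒱.Obj) : Prop :=
  ∀ (j : ℕ) (c : T.W.H Y), AH.IsHodge T Y j c → c ∈ G.C Y

lemma alg_of_HSub {G : Cl T.W} [FiniteDimensional T.W.K L] [IsGalois T.W.K L] (hY : HG G Y)
    {J : ℕ} {x : (baseW T.W L).H Y} (hx : x ∈ HSub L T Y J) : x ∈ (clL G L).C Y := by
  have h1 := hodge_descent hx
  refine (Submodule.span_le (p := (clL G L).C Y)).2 ?_ h1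
  rintro _ ⟨c, hc, rfl⟩
  exact em_SG (hY J c hc)

end Pool.Agent.R936.Hel2
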