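import Pool.Agent.R936.Hel2.HC
import Pool.Agent.R936.Hel2.Defs
import Pool.Agent.R940.HFin

/-!
# The theorem of Helly type for Hodge classes: dimensions of Hodge groups
-/

set_option linter.unusedVariables false
set_option linter.unusedSectionVars false

open CategoryTheory AlgebraicGeometry TensorProduct

universe u w

namespace Pool.Agent.R936.Hel2

open Pool.Agent.H914 Pool.Agent.W534 VarClass Obj WeilCohomology
open Pool.Agent.Y121
open Pool.Agent.Y163 (HBasis)
open Pool.Agent.H281R3.HT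
open Pool.Agent.W536.RR (algSpan_map algSpan_mul one_mem_algSpan cl_mem_algSpan algSpan_push)
open Pool.Agent.R940 (CMB csH csH_smul csH_map csH_em csH_gr csH_inj HSub em_HSub hodge_descent
  cs_ind cs_tmul cs_baseChange type_bound deg_eq repr_zero exists_cycle exists_cmb)
open Pool.Agent.R936.Hel (toZ Cl)

section LinAlg

/-- Integral relations from relations over a field. -/
lemma exists_int_rel {L : Type*} [Field L] [CharZero L] {R : ℕ} {S : Type*}
    {lam : Fin (R + 1) → L} (hlam : lam ≠ 0) {v : Fin (R + 1) → S → ℤ}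
    (h : ∀ s, ∑ i, lam i * (v i s : L) = 0) :
    ∃ a : Fin (R + 1) → ℤ, a ≠ 0 ∧ ∑ i, a i • v i = 0 := by
  obtain ⟨i0, hi0⟩ := Function.ne_iff.1 hlam
  have h1 : ∃ φ : L →ₗ[ℚ] ℚ, φ (lam i0) ≠ 0 := by
    by_contra hcon
    push Not at hcon
    exact hi0 ((Module.forall_dual_apply_eq_zero_iff ℚ (lam i0)).1 hcon)
  obtain ⟨φ, hφ⟩ := h1
  obtain ⟨⟨N, hN⟩, hN'⟩ := IsLocalization.exist_integer_multiples_of_finite
    (nonZeroDivisors ℤ) (S := ℚ) (fun i => φ (lam i))
  have hN0 : N ≠ 0 := nonZeroDivisors.ne_zero hN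
  choose a ha using hN'
  have ha' : ∀ i, (a i : ℚ) = (N : ℚ) * φ (lam i) := by
    intro i
    have h2 : ((a i : ℤ) : ℚ) = N • φ (lam i) := ha i
    rwa [zsmul_eq_mul] at h2
  refine ⟨a, ?_, ?_⟩
  · intro h0
    apply hφ
    have h2 := ha' i0
    rw [h0, Pi.zero_apply, Int.cast_zero] at h2
    exact (mul_eq_zero.1 h2.symm).resolve_left (by exact_mod_cast hN0)
  · funext s
    have h2 : ∑ i, φ (lam i) * (v i s : ℚ) = 0 := by
      have h3 := congrArg φ (h s)
      rw [map_sum, map_zero] at h3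
      rw [← h3]
      refine Finset.sum_congr rfl fun i _ => ?_
      have h4 : lam i * (v i s : L) = (v i s : ℚ) • lam i := by
        rw [Algebra.smul_def, mul_comm, map_intCast]
      rw [h4, map_smul, smul_eq_mul, mul_comm]
    have h3 : ((∑ i, a i • v i) s : ℚ) = 0 := by
      rw [Finset.sum_apply]
      push_cast
      calc ∑ i, (((a i • v i) s : ℤ) : ℚ) = ∑ i, (N : ℚ) * (φ (lam i) * (v i s : ℚ)) := by
            refine Finset.sum_congr rfl fun i _ => ?_
            rw [Pi.smul_apply, smul_eq_mul, Int.cast_mul, ha', mul_assoc]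
        _ = 0 := by rw [← Finset.mul_sum, h2, mul_zero]
    exact_mod_cast h3

/-- Comparison of a coefficient. -/
lemma coeff_eq {F V κ : Type*} [Field F] [AddCommGroup V] [Module F V] (b : Module.Basis κ F V)
    {R : ℕ} {z : Fin R → F} {x : Fin R → V} {c : F} {l : κ} (h : ∑ j, z j • x j = c • b l) :
    ∑ j, z j * b.repr (x j) l = c := by
  have h3 := congrArg (fun x => b.repr x l) h
  simp only [map_sum, map_smul, Finsupp.coe_finsetSum, Finset.sum_apply, Finsupp.smul_apply,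
    smul_eq_mul, Module.Basis.repr_self, Finsupp.single_eq_same, mul_one] at h3
  exact h3

end LinAlg

variable {k : Type u} [Field k] {𝒱 : VarClass k} {ops : CycleOps 𝒱} {Y Z : 𝒱.Obj} {I : Type w}
  {X : I → 𝒱.Obj}

section

variable {T : AH.HodgeTheory ops} {L : Type} [Field L] [Algebra T.W.K L] {ι : I → Type}

/-- The coefficients of conjugate classes. -/
lemma repr_csH1 {X : 𝒱.Obj} {ι : Type} [Finite ι] (M : CMB T X L ι) (σ : L →ₐ[T.W.K] ℂ)
    (x : (baseW T.W L).H X) (a : ι) :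
    (M.C σ).b.repr (csH σ X x) a = (show (baseW T.W ℂ).K from σ (M.B.b.repr x a)) := by
  classical
  cases nonempty_fintype ι
  have h1 : csH σ X x = ∑ m, (show (baseW T.W ℂ).K from σ (M.B.b.repr x m)) • (M.C σ).b m := by
    conv_lhs => rw [← M.B.b.sum_repr x]
    rw [map_sum]
    refine Finset.sum_congr rfl fun m _ => ?_
    rw [csH_smul, M.C_b]
  rw [h1, (M.C σ).b.repr_sum_self]

/-- The operator with extended coefficients. -/
noncomputable def opL (L : Type) [Field L] [Algebra T.W.K L] {X : 𝒱.Obj}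
    (f : T.W.H X →ₗ[T.W.K] T.W.H X) : (baseW T.W L).H X →ₗ[(baseW T.W L).K] (baseW T.W L).H X :=
  f.baseChange L

lemma opL_csH {X : 𝒱.Obj} (f : T.W.H X →ₗ[T.W.K] T.W.H X) (σ : L →ₐ[T.W.K] ℂ)
    (x : (baseW T.W L).H X) : opL ℂ f (csH σ X x) = csH σ X (opL L f x) :=
  (cs_baseChange σ f x).symm

/-- The rank of the types. -/
lemma rank_le [∀ i, Finite (ι i)] [CharZero L] (M : ∀ i, CMB T (X i) L (ι i)) {R : ℕ}
    {D : Fin R → ∀ i, (T.W.H (X i) →ₗ[T.W.K] T.W.H (X i))} {z : Fin R → ℂ}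
    (hD : ∀ (i : I) (p q : ℤ) (x : (baseW T.W ℂ).H (X i)), x ∈ T.pq (X i) p q →
      ∑ j, (show (baseW T.W ℂ).K from z j) • opL ℂ (D j i) x =
        (show (baseW T.W ℂ).K from ((p - q : ℤ) : ℂ)) • x)
    (s : Fin (R + 1) → (Σ i, ι i)) : ∃ a : Fin (R + 1) → ℤ, a ≠ 0 ∧ ∑ i, a i • wt M (s i) = 0 := by
  -- the diagonal coefficients
  let δ : Fin R → (Σ i, ι i) → L := fun j l =>
    (M l.1).B.b.repr (opL L (D j l.1) ((M l.1).B.b l.2)) l.2
  have h1 : ∀ (σ : L →ₐ[T.W.K] ℂ) (l : Σ i, ι i), ∑ j, z j * σ (δ j l) = ((wt M l σ : ℤ) : ℂ) := by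
    intro σ l
    have h2 := coeff_eq ((M l.1).C σ).b (hD l.1 _ _ _ ((M l.1).type σ l.2))
    refine Eq.trans (Finset.sum_congr rfl fun j _ => ?_) h2
    have h3 : ((M l.1).C σ).b.repr (opL ℂ (D j l.1) (((M l.1).C σ).b l.2)) l.2 =
        (show (baseW T.W ℂ).K from σ (δ j l)) := by
      rw [(M l.1).C_b, opL_csH, repr_csH1]
    exact congrArg (z j * ·) h3.symm
  obtain ⟨lam, hlam, hker⟩ : ∃ lam : Fin (R + 1) → L, lam ≠ 0 ∧
      ∀ j, ∑ i, lam i * δ j (s i) = 0 := by
    let f : (Fin (R + 1) → L) →ₗ[L] (Fin R → L) :=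
      LinearMap.pi fun j => ∑ i, (δ j (s i)) • LinearMap.proj i
    have h2 : LinearMap.ker f ≠ ⊥ := LinearMap.ker_ne_bot_of_finrank_lt (by
      rw [Module.finrank_fin_fun, Module.finrank_fin_fun]
      exact Nat.lt_succ_self R)
    obtain ⟨lam, h3, h4⟩ := (Submodule.ne_bot_iff _).1 h2
    refine ⟨lam, h4, fun j => ?_⟩
    have h5 := congrFun (LinearMap.mem_ker.1 h3) j
    have h6 : f lam j = ∑ i, lam i * δ j (s i) := by
      simp only [f, LinearMap.pi_apply, LinearMap.sum_apply, LinearMap.smul_apply,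
        LinearMap.proj_apply, smul_eq_mul]
      exact Finset.sum_congr rfl fun i _ => mul_comm _ _
    rw [← h6, h5]
    rfl
  refine exists_int_rel hlam fun σ => ?_
  apply σ.injective
  have h2 : ∑ i, σ (lam i) * ((wt M (s i) σ : ℤ) : ℂ) = 0 := by
    calc ∑ i, σ (lam i) * ((wt M (s i) σ : ℤ) : ℂ)
        = ∑ i, ∑ j, z j * σ (lam i * δ j (s i)) := by
          refine Finset.sum_congr rfl fun i _ => ?_
          rw [← h1 σ (s i), Finset.mul_sum]
          refine Finset.sum_congr rfl fun j _ => ?_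
          rw [map_mul]
          ring
      _ = ∑ j, z j * σ (∑ i, lam i * δ j (s i)) := by
          rw [Finset.sum_comm]
          refine Finset.sum_congr rfl fun j _ => ?_
          rw [map_sum, Finset.mul_sum]
      _ = 0 := by
          refine Finset.sum_eq_zero fun j _ => ?_
          rw [hker, map_zero, mul_zero]
  rw [map_zero, ← h2, map_sum]
  refine Finset.sum_congr rfl fun i _ => ?_
  exact (map_mul σ _ _).trans (congrArg (σ (lam i) * ·) (map_intCast σ _))

end

end Pool.Agent.R936.Hel2
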